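import Mathlib
import Pool.Agent.Helper55.Extend

/-!
# Free indecomposability of finitely generated subgroups of mapping class groups is undecidable
-/

set_option autoImplicit false

namespace Pool.Agent.Results.MP_68e4fd_al.FreeIndecompUndec

open Pool.Agent.Helper55

/-- For every genus `g ≥ 4` there is a finite set `E` of mapping classes such that, whenever `S` is
a finite family of mapping classes whose generated subgroup contains `E` (for instance any finite
generating family of the mapping class group), there is no algorithm which decides, given a finite
list of words in `S` and the inverses, whether the subgroup of the mapping class group generated by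
these words is freely indecomposable. -/
theorem result (g : ℕ) (hg : 4 ≤ g) :
    ∃ E : Finset (ModGroup g), ∀ (k : ℕ) (S : Fin k → ModGroup g),
      (∀ x ∈ E, x ∈ Subgroup.closure (Set.range S)) →
      ¬ ComputablePred fun ws : List (List (Fin k × Bool)) =>
        FreelyIndecomposable (subgroupOf S ws) := by
  obtain ⟨E, hE⟩ := mod_undecidable g hg
  exact ⟨E, fun k S hS => (hE k S hS).1⟩

end Pool.Agent.Results.MP_68e4fd_al.FreeIndecompUndec
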